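import Pool.Agent.helper70.BND.SpecH

/-!
# Project bnd (MP_376aaf_an), block H, row bh:FWB: continuity and ends of the words of the next level
-/

set_option autoImplicit false

open scoped Topology
open Finset

namespace Pool.Agent.BND.EX

/-- ROW bh:FWB -/
theorem FWB (hFWA : FWA_stmt) (hMKL : MKL_stmt) : FWB_stmt := by
  intro m A A' M J Rk w hNx hW Φ hΦ
  obtain ⟨hhw, -, hvt, -⟩ := hFWA m A A' M J Rk w hNx hW
  obtain ⟨hlv, -⟩ := hMKL A' hNx.gl'
  have h0 : (0 : ℝ) ∈ U := ⟨le_refl _, zero_le_one⟩
  have hcong : ∀ (e : ℕ) (b : Bool), e < A'.l.N →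
      ((A'.l.W e b).flatMap fun v => w v 0) = (A'.l.W e b).flatMap fun v => wv A.l J (M v) := by
    intro e b he
    have key : ∀ u : List ℕ, (∀ v ∈ u, v < A'.n) →
        (u.flatMap fun v => w v 0) = u.flatMap fun v => wv A.l J (M v) := by
      intro u
      induction u with
      | nil =>
        intro _
        rfl
      | cons x u ih =>
        intro hu
        rw [List.flatMap_cons, List.flatMap_cons, ih (fun v hv => hu v (List.mem_cons_of_mem x hv)),
          hW.vt x 0 (hu x List.mem_cons_self)]
    exact key _ (fun v hv => hlv.mem e he b v hv)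
  have hht : ∀ (e : ℕ), A'.n ≤ e → e < A'.l.N →
      hw A.l.h ((A'.l.W e false).flatMap fun v => wv A.l J (M v)) = A'.l.h e := by
    intro e h1 h2
    obtain ⟨d, hP, -⟩ := hW.bd e h1 h2
    rw [← hP.ht 0 h0, hhw e 0 h2 h0]
  constructor
  · intro e i he hi
    rcases lt_or_ge e A'.n with h | h
    · have hc : (fun s => fw A.l.h Φ (w e s) i) = fun _ => fw A.l.h Φ (wv A.l J (M e)) i := by
        funext s
        rw [hW.vt e s h]
      rw [hc]
      exact continuousOn_const
    · obtain ⟨d, hP, -⟩ := hW.bd e h he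
      exact hP.cts Φ hΦ i (by rw [hht e h he]; exact hi)
  · intro e b i he hi
    rcases lt_or_ge e A'.n with h | h
    · have hWe : A'.l.W e b = [e] := hlv.vtx e h b
      rw [hvt e _ h, hWe]
      simp
    · obtain ⟨d, hP, -⟩ := hW.bd e h he
      have hi' : i < hw A.l.h ((A'.l.W e false).flatMap fun v => wv A.l J (M v)) := by
        rw [hht e h he]
        exact hi
      rw [hcong e b he]
      cases b with
      | false => exact hP.at0 Φ hΦ i hi'
      | true => exact hP.at1 Φ hΦ i hi'

end Pool.Agent.BND.EX
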